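import Pool.Agent.T9h50.AC.Axes

set_option autoImplicit false

open MeasureTheory

namespace Pool.Agent.T9h50.Alt.FrozenAxes

/-- The Hilbert space `ℓ²(ℤᵈ)`. -/
def L2 (d : ℕ) : Type := lp (fun _ : Fin d → ℤ => ℂ) 2

/-- The `ℓ²` norm. -/
noncomputable instance instNorm (d : ℕ) : NormedAddCommGroup (L2 d) :=
  @lp.normedAddCommGroup (Fin d → ℤ) (fun _ => ℂ) 2 _ _

/-- The `ℓ²` inner product. -/
noncomputable instance instInner (d : ℕ) : InnerProductSpace ℂ (L2 d) :=
  @lp.instInnerProductSpace (Fin d → ℤ) ℂ _ (fun _ => ℂ) _ _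

/-- The underlying function of a vector of `ℓ²(ℤᵈ)`. -/
def coord {d : ℕ} (u : L2 d) : (Fin d → ℤ) → ℂ := (show lp (fun _ : Fin d → ℤ => ℂ) 2 from u)

/-- Bounded linear operators on a complex inner product space. -/
abbrev Op (E : Type) [NormedAddCommGroup E] [InnerProductSpace ℂ E] : Type := E →L[ℂ] E

/-- `-(discrete Laplacian) + ω` on functions (`true` codes `+1`, `false` codes `-1`). -/
noncomputable def act {d : ℕ} (ω : (Fin d → ℤ) → Bool) (u : (Fin d → ℤ) → ℂ)
    (j : Fin d → ℤ) : ℂ :=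
  -(∑ i : Fin d, ((u (j + Pi.single i 1) - u j) + (u (j - Pi.single i 1) - u j)))
    + (if ω j then (1 : ℂ) else -1) * u j

/-- The bounded operator `H` on `ℓ²(ℤᵈ)` acts as `-(discrete Laplacian) + ω`. -/
def IsAnderson {d : ℕ} (ω : (Fin d → ℤ) → Bool) (H : Op (L2 d)) : Prop :=
  ∀ u : L2 d, coord (H u) = act ω (coord u)

/-- `(H - z)⁻¹` -/
noncomputable def res {E : Type} [NormedAddCommGroup E] [InnerProductSpace ℂ E] (H : Op E) (z : ℂ) :
    Op E :=
  Ring.inverse (H - z • (1 : Op E))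

/-- `μ` is the spectral measure of `ψ`: a finite measure with Borel transform
`⟨ψ, (H - z)⁻¹ ψ⟩` off the real line. -/
def IsSpectralMeasure {E : Type} [NormedAddCommGroup E] [InnerProductSpace ℂ E]
    (H : Op E) (ψ : E) (μ : Measure ℝ) : Prop :=
  IsFiniteMeasure μ ∧ ∀ z : ℂ, z.im ≠ 0 →
    ∫ x, ((x : ℂ) - z)⁻¹ ∂μ = inner ℂ ψ (res H z ψ)

/-- Some spectral measure of `H` is not singular on `(a, b)`: there is absolutely continuous
spectrum in `(a, b)`. -/
def HasACOn {E : Type} [NormedAddCommGroup E] [InnerProductSpace ℂ E] (H : Op E) (a b : ℝ) : Prop :=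
  ∃ (ψ : E) (μ : Measure ℝ), IsSpectralMeasure H ψ μ ∧ ¬ (μ.restrict (Set.Ioo a b)) ⟂ₘ volume

/-- The site `x` is in the logarithmic neighbourhood of a coordinate axis: for some `i` all the
coordinates other than the `i`-th are at most `C log (2 + |x i|)`. -/
def NearAxis {d : ℕ} (C : ℝ) (x : Fin d → ℤ) : Prop :=
  ∃ i, ∀ j, j ≠ i → |(x j : ℝ)| ≤ C * Real.log (2 + |(x i : ℝ)|)

/-- One can freeze the potential at the sites of a set `F` near the coordinate axes in such a way
that every `±1` potential with the prescribed values on `F`, whatever its values off `F`, has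
absolutely continuous spectrum in every open interval contained in `S`. -/
def ForcesAC (d : ℕ) (S : Set ℝ) : Prop :=
  ∃ (C : ℝ) (F : Set (Fin d → ℤ)) (p : (Fin d → ℤ) → Bool),
    (∀ x ∈ F, NearAxis C x) ∧
    ∀ ω : (Fin d → ℤ) → Bool, (∀ x ∈ F, ω x = p x) →
      ∀ H : Op (L2 d), IsAnderson ω H → ∀ a b : ℝ, a < b → Set.Ioo a b ⊆ S → HasACOn H a b

/-- For every `δ > 0` and `d ≥ 2` a frozen set near the coordinate axes forces absolutely
continuous spectrum in all of `(-1 + δ, 3) ∪ (4 d - 3, 4 d + 1 - δ)`, and for `d = 2` in all of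
`(-1 + δ, 9 - δ)` (every `±1` potential has its spectrum in `[-1, 4 d + 1]`). -/
theorem result (δ : ℝ) (hδ : 0 < δ) :
    (∀ d : ℕ, 2 ≤ d →
      ForcesAC d (Set.Ioo (-1 + δ) 3 ∪ Set.Ioo (4 * (d : ℝ) - 3) (4 * (d : ℝ) + 1 - δ))) ∧
    ForcesAC 2 (Set.Ioo (-1 + δ) (9 - δ)) := by
  refine ⟨fun d hd => ?_, ?_⟩
  · obtain ⟨m, rfl⟩ : ∃ m, d = m + 1 := ⟨d - 1, by omega⟩
    have hm : (1 : ℝ) ≤ m := by exact_mod_cast (by omega : 1 ≤ m)
    obtain ⟨C, F, p, h1, h2⟩ := T9h50.AC.general (m := m) hδ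
    refine ⟨C, F, p, fun x hx => ⟨0, fun j hj => ?_⟩, fun ω hω H hH a b hab hS => ?_⟩
    · obtain ⟨i, rfl⟩ := Fin.exists_succ_eq.2 hj
      exact h1 x hx i
    · have key : (-1 + δ ≤ a ∧ b ≤ 3) ∨ (4 * (m : ℝ) + 1 ≤ a ∧ b ≤ 4 * m + 5 - δ) := by
        have hc : (a + b) / 2 ∈ Set.Ioo a b := ⟨by linarith, by linarith⟩
        push_cast at hS
        rcases hS hc with hc1 | hc1
        · left
          constructor
          · by_contra hcon
            push Not at hcon
            have : (-1 + δ) ∈ Set.Ioo a b := ⟨hcon, by linarith [hc1.1, hc.2]⟩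
            rcases hS this with h | h
            · exact lt_irrefl _ h.1
            · linarith [h.1, hc1.1, hc1.2]
          · by_contra hcon
            push Not at hcon
            have : (3 : ℝ) ∈ Set.Ioo a b := ⟨by linarith [hc1.2, hc.1], hcon⟩
            rcases hS this with h | h
            · exact lt_irrefl _ h.2
            · linarith [h.1]
        · right
          constructor
          · by_contra hcon
            push Not at hcon
            have : (4 * ((m : ℝ) + 1) - 3) ∈ Set.Ioo a b :=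
              ⟨by linarith, by linarith [hc1.1, hc.2]⟩
            rcases hS this with h | h
            · linarith [h.2]
            · exact lt_irrefl _ h.1
          · by_contra hcon
            push Not at hcon
            have : (4 * ((m : ℝ) + 1) + 1 - δ) ∈ Set.Ioo a b :=
              ⟨by linarith [hc1.2, hc.1], by linarith⟩
            rcases hS this with h | h
            · linarith [h.2, hc1.1, hc1.2]
            · exact lt_irrefl _ h.2
      obtain ⟨ψ, μ, g1, g2, g3⟩ := h2 ω hω H (fun u j => congrFun (hH u) j) a b hab key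
      exact ⟨ψ, μ, ⟨g1, g2⟩, g3⟩
  · obtain ⟨C, F, p, h1, h2⟩ := T9h50.AC.plane hδ
    refine ⟨C, F, p, fun x hx => ?_, fun ω hω H hH a b hab hS => ?_⟩
    · rcases h1 x hx with h | h
      · refine ⟨0, fun j hj => ?_⟩
        fin_cases j
        · exact absurd rfl hj
        · exact h
      · refine ⟨1, fun j hj => ?_⟩
        fin_cases j
        · exact h
        · exact absurd rfl hj
    · obtain ⟨ha, hb⟩ := (Set.Ioo_subset_Ioo_iff hab).1 hS
      obtain ⟨ψ, μ, g1, g2, g3⟩ := h2 ω hω H (fun u j => congrFun (hH u) j) a b hab ha hb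
      exact ⟨ψ, μ, ⟨g1, g2⟩, g3⟩

end Pool.Agent.T9h50.Alt.FrozenAxes
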